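import Pool.Agent.H68.QT.Targets

/-!
# Towers: one more quantifier
-/

set_option autoImplicit false

namespace Pool.Agent.H54.QT

open Finset Pool.Agent.H68.QT Pool.Agent.H68.QC Pool.Agent.H70.OQ Pool.Agent.H70.RK
open Pool.Agent.H6.NB

theorem node_nonempty' (X : Type) (Y : ℕ → Type) [Nonempty X] [∀ i, Nonempty (Y i)] (i : ℕ) :
    Nonempty (Node X Y i) := by
  induction i with
  | zero => exact ‹Nonempty X›
  | succ i ih => exact (inferInstance : Nonempty (Node X Y i × Y i))

theorem pf_BTB (hTWL : T_TWL) (hTWR : T_TWR) (hGSL : T_GSL) (hGST : T_GST) : T_BTB := by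
  intro X Y _ _ _ _ _ _ m W G' G K i T q q' E hT hW hq hq2 hqT hq' hWq' hG' hE hGY hTab
  have hne0 := node_nonempty' X Y i
  have hne1 := node_nonempty' X Y (i + 1)
  have hW1 : (1 : ℝ) ≤ W := by exact_mod_cast hW
  have hq1 : q' ≤ 1 := by nlinarith
  have h1q : 0 ≤ 1 - q' := by linarith
  have hE' : 0 ≤ eC m (i + 1) W +
      (Fintype.card (Node X Y i) : ℝ) * (G' * Fintype.card (Node X Y i) : ℕ) * (1 - q') ^ G + E := by
    unfold eC
    positivity
  have h1 := hGST X Y true K i (G' * Fintype.card (Node X Y i)) (Fintype.card (Node X Y (i + 1))) G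
    q' (eC m (i + 1) W) E (TwC (Node X Y (i + 1)) m T W (i + 1))
    (TwD (Node X Y (i + 2)) m T W W (i + 2)) hq'.le hq1 hE
    (Nat.mul_pos hG' Fintype.card_pos) Fintype.card_pos hGY hTab (by
      intro L V1 V0 hC hL
      exact hTWR (Node X Y (i + 1)) (Y (i + 1)) m (i + 1) W W W T q' L V1 V0 hW le_rfl le_rfl hq'
        hWq' hL hC)
  exact hGSL X Y true K (i + 1) (Fintype.card (Node X Y (i + 1)))
    (G' * Fintype.card (Node X Y (i + 1))) G' q (eL m (i + 2) W) _
    (TwD (Node X Y (i + 2)) m T W W (i + 2)) (TwC (Node X Y (i + 2)) m T W (i + 2)) hq.le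
    (by linarith) hE' Fintype.card_pos (Nat.mul_pos hG' Fintype.card_pos) le_rfl h1 (by
      intro V1 V0 hC
      exact hTWL (Node X Y (i + 2)) m (i + 2) W W T q V1 V0 hT hW hW hq hq2 hqT hC)

end Pool.Agent.H54.QT
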